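import Pool.Agent.LDF.All

/-!
# Critical points at infinity and faces of the Newton polytope: all limit directions

Complete description of the limits of (critical point, direction) at the orbits of the toric
variety of the Newton polytope, and the exact truth table of Q1.  Definitions:
`Pool/Agent/LDF/Defs.lean`.
-/

set_option autoImplicit false

open scoped Pointwise

namespace Pool.Agent.Results.MP_759130_ag.LimitDirections

open LDF

theorem result :
    (∀ (d : ℕ) (N Γ : Set (Fin d → ℝ)), IsPoly N → IsFace N Γ →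
      (∀ (S : Set (Fin d → ℂ)) (r : Fin d → ℂ), S ⊆ Tor d → IsLim N Γ S r → Ort N Γ r) ∧
      (∀ r : Fin d → ℂ, r ≠ 0 → Ort N Γ r → 0 < fdim Γ → ∃ (k : ℕ) (Q : Lau d), 0 < k ∧
        newt Q = (k : ℝ) • N ∧ IsSmoothLim Q ((k : ℝ) • Γ) r) ∧
      (Q1At N Γ ↔ fdim Γ = 0 ∨ fdim Γ + 1 = d ∨ fdim Γ = d)) ∧
    ∀ d : ℕ, (∀ N Γ : Set (Fin d → ℝ), IsPoly N → IsFace N Γ → Q1At N Γ) ↔ d ≤ 2 := by
  have hGEO := p_GEO
  have hLGR := p_LGR
  have hPLA := p_PLA p_EXP
  have hGD : T_GD := p_GD p_LIN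
  have hCSL := p_CSL hGD hPLA
  have hARC := p_ARC hCSL p_DER hLGR
  have hONE := p_ONE hARC (p_NOE hLGR) hGEO
  have hBLD := p_BLD (p_EXS p_ROOT) hLGR
  have hTWO := p_TWO hBLD (p_LAT hGEO) p_LAT0 p_DUAL p_VEX
  have hMAIN := p_MAIN hONE hTWO (p_VTX hGEO) (p_DIM (p_INT hGEO)) p_SCL
  exact p_FIN hMAIN p_EX

end Pool.Agent.Results.MP_759130_ag.LimitDirections
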